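import Pool.Agent.Lib.MP_0bc52e_nt.T.All
import Pool.Agent.Lib.MP_0bc52e_nt.R.P.OpR
import Pool.Agent.Lib.MP_0bc52e_nt.R.P.WT7
import Pool.Agent.Lib.MP_0bc52e_nt.R.P.beta
import Pool.Agent.Lib.MP_0bc52e_nt.R.P.cent
import Pool.Agent.Lib.MP_0bc52e_nt.R.P.dio
import Pool.Agent.Lib.MP_0bc52e_nt.R.P.edge
import Pool.Agent.Lib.MP_0bc52e_nt.R.P.emp4
import Pool.Agent.Lib.MP_0bc52e_nt.R.P.exc
import Pool.Agent.Lib.MP_0bc52e_nt.R.P.excA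
import Pool.Agent.Lib.MP_0bc52e_nt.R.P.fib
import Pool.Agent.Lib.MP_0bc52e_nt.R.P.fn
import Pool.Agent.Lib.MP_0bc52e_nt.R.P.idx
import Pool.Agent.Lib.MP_0bc52e_nt.R.P.idxA
import Pool.Agent.Lib.MP_0bc52e_nt.R.P.ix1
import Pool.Agent.Lib.MP_0bc52e_nt.R.P.ix5
import Pool.Agent.Lib.MP_0bc52e_nt.R.P.nf
import Pool.Agent.Lib.MP_0bc52e_nt.R.P.numE
import Pool.Agent.Lib.MP_0bc52e_nt.R.P.prm
import Pool.Agent.Lib.MP_0bc52e_nt.R.P.pyr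
import Pool.Agent.Lib.MP_0bc52e_nt.R.P.rA
import Pool.Agent.Lib.MP_0bc52e_nt.R.P.rB
import Pool.Agent.Lib.MP_0bc52e_nt.R.P.rC
import Pool.Agent.Lib.MP_0bc52e_nt.R.P.rC2
import Pool.Agent.Lib.MP_0bc52e_nt.R.P.rO
import Pool.Agent.Lib.MP_0bc52e_nt.R.P.rbase
import Pool.Agent.Lib.MP_0bc52e_nt.R.P.refl
import Pool.Agent.Lib.MP_0bc52e_nt.R.P.rfr
import Pool.Agent.Lib.MP_0bc52e_nt.R.P.roots
import Pool.Agent.Lib.MP_0bc52e_nt.R.P.side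
import Pool.Agent.Lib.MP_0bc52e_nt.R.P.sort
import Pool.Agent.Lib.MP_0bc52e_nt.R.P.teM
import Pool.Agent.Lib.MP_0bc52e_nt.R.P.teS
import Pool.Agent.Lib.MP_0bc52e_nt.R.P.tr1
import Pool.Agent.Lib.MP_0bc52e_nt.R.P.upD
import Pool.Agent.Lib.MP_0bc52e_nt.R.P.upT
import Pool.Agent.Lib.MP_0bc52e_nt.R.P.upW

/-!
Assembly of part R (MP_0bc52e_nt): the root theorem.
-/

namespace Pool.Agent.Lib.MP_0bc52e_nt.R

lemma q_WT7 : S_WT7 := p_WT7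
lemma q_cent : S_cent := p_cent T.q_fr1
lemma q_dio : S_dio := p_dio
lemma q_emp4 : S_emp4 := p_emp4
lemma q_excA : S_excA := p_excA
lemma q_fib : S_fib := p_fib
lemma q_fn : S_fn := p_fn
lemma q_idxA : S_idxA := p_idxA
lemma q_ix1 : S_ix1 := p_ix1
lemma q_ix5 : S_ix5 := p_ix5
lemma q_nf : S_nf := p_nf T.q_W8n T.q_fr1
lemma q_numE : S_numE := p_numE
lemma q_pyr : S_pyr := p_pyr
lemma q_refl : S_refl := p_refl
lemma q_rfr : S_rfr := p_rfr T.q_fr1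
lemma q_teM : S_teM := p_teM T.q_quadX T.q_floor
lemma q_teS : S_teS := p_teS
lemma q_tr1 : S_tr1 := p_tr1
lemma q_upD : S_upD := p_upD
lemma q_upT : S_upT := p_upT
lemma q_upW : S_upW := p_upW
lemma q_beta : S_beta := p_beta q_refl q_dio
lemma q_exc : S_exc := p_exc q_excA
lemma q_idx : S_idx := p_idx q_teS q_emp4 q_nf q_fn q_idxA
lemma q_prm : S_prm := p_prm q_tr1
lemma q_side : S_side := p_side q_upW q_upT q_upD q_pyr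
lemma q_sort : S_sort := p_sort q_teS
lemma q_edge : S_edge := p_edge q_prm q_tr1 q_fib q_numE
lemma q_rC : S_rC := p_rC q_teM q_sort q_WT7 q_idx q_emp4 q_nf q_exc q_ix1 q_ix5
lemma q_rbase : S_rbase := p_rbase q_side T.q_J2
lemma q_rB : S_rB := p_rB T.q_pln q_rbase q_rfr T.q_sides T.q_fr1 T.q_fr2
lemma q_rO : S_rO := p_rO T.q_pln q_rbase q_rfr T.q_sides T.q_fr1 T.q_fr2
lemma q_OpR : S_OpR := p_OpR q_rO
lemma q_rC2 : S_rC2 := p_rC2 q_OpR q_rB q_edge q_cent q_beta q_rfr T.q_circ2 T.q_fr2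
lemma q_rA : S_rA := p_rA q_rC2 q_rfr T.q_prim T.q_fr1 T.q_fr2
lemma q_roots : S_roots := p_roots q_rA q_rB q_rC q_rfr T.q_circ T.q_fr2

end Pool.Agent.Lib.MP_0bc52e_nt.R
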