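import Pool.Agent.Lib.MP_0bc52e_nt.R.DefsR
import Pool.Agent.Lib.MP_0bc52e_nt.T.StmH

/-!
# Statements, part R: the root theorem

Definitions: `R/DefsR.lean`, `T/Defs.lean`, `LC/Defs.lean`. `[x]` refers to the statement `S_x` of this file, `[T.x]` to `T.S_x` (files `T/StmN.lean`,
`T/StmH.lean`; all of those are proved, take them as hypotheses when the piece says so). `e₃ = (0, 0, 1)`, `qᵢ = pr sᵢ`, `zᵢ = sᵢ.2.2`.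
-/

open scoped Pointwise

namespace Pool.Agent.Lib.MP_0bc52e_nt.R

open Pool.Agent.Lib.MP_0bc52e_nt.LC Pool.Agent.Lib.MP_0bc52e_nt.T

/-! ## A. Planar bases -/

/-- [upW] Proof. Let `f = X % k`, `g = Y % k`, `X = k i + f`, `Y = k l + g`, `0 ≤ f, g < k`. The hypothesis for `j = 1` and `(a, c) = (i, l)`: the numbers `k a - X = -f`, `k c - Y = -g`; `-f - g ≤ k - 1`, so `2g - f ≥ k` or `2f - g ≥ k` (in particular `f + g ≥ 1`). `(i + 1, l + 1)`: `(k - f, k - g)`; the second and third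
inequalities hold (`2g - f ≤ 2k - 1`), so the first fails: `f + g ≤ k`. `(i, l + 1)`: `(-f, k - g)`: the first two hold, so `k - g + 2f ≥ k`, `g ≤ 2f`. `(i + 1, l)`: `f ≤ 2g`. If `2g - f ≥ k ≥ f + g` then `g ≥ 2f`, so `g = 2f` and `k = 3f`; otherwise `f = 2g`, `k = 3g`. Let `k = 3m`; `(f, g) = (m, 2m)` or `(2m, m)`.
If `m ≥ 2`, take `j = 3 < k`: `3X/k = 3i + f/m` is an integer `a`, `3Y/k = c` too, `k a - 3X = 0`, `k c - 3Y = 0`: excluded. So `k = 3`. -/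
def S_upW : Prop := ∀ k X Y : ℤ, 2 ≤ k → (∀ j a c : ℤ, 0 < j → j < k → ¬ ((k * a - j * X) + (k * c - j * Y) ≤ k - j ∧
    (k * a - j * X) - 2 * (k * c - j * Y) ≤ k - j ∧ (k * c - j * Y) - 2 * (k * a - j * X) ≤ k - j)) →
  k = 3 ∧ (((3 : ℤ) ∣ X - 1 ∧ (3 : ℤ) ∣ Y + 1) ∨ ((3 : ℤ) ∣ X + 1 ∧ (3 : ℤ) ∣ Y - 1))

/-- [upT] Proof. `f = X % k`, `g = Y % k` as in [upW], `j = 1`. Translate `(i, l)`: `-g ≤ k - 1`, so `2f + g ≥ k`. `(i + 1, l)`: `2(k - f) + g ≥ k`. If `g ≥ 1`: `(i, l + 1)`: `k - g ≤ k - 1`, so `2f - (k - g) ≥ k`; `(i + 1, l + 1)`: `2(k - f) - (k - g) ≥ k`; the sum gives `2g ≥ 2k`, impossible. So `g = 0`,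
`2f ≥ k`, `2f ≤ k`: `k = 2f`. If `k = 2m`, `m ≥ 2`: `j = 2`, `a = 2X/k`, `c = 2Y/k` are integers: excluded. So `k = 2`, `f = 1`, `g = 0`. -/
def S_upT : Prop := ∀ k X Y : ℤ, 2 ≤ k → (∀ j a c : ℤ, 0 < j → j < k → ¬ ((k * c - j * Y) ≤ k - j ∧
    2 * |k * a - j * X| - (k * c - j * Y) ≤ k - j)) → k = 2 ∧ ¬ (2 : ℤ) ∣ X ∧ (2 : ℤ) ∣ Y

/-- [upD] Proof. `j = 1`, translates `(i, l), (i + 1, l), (i, l + 1), (i + 1, l + 1)`: `f + g ≥ k`, `k - f + g ≥ k`, `f + k - g ≥ k`, `2k - f - g ≥ k`: `f = g`, `2f = k`. If `k = 2m`, `m ≥ 2`: `j = 2`, `a = 2X/k`, `c = 2Y/k` integers: excluded. So `k = 2`, `f = g = 1`. -/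
def S_upD : Prop := ∀ k X Y : ℤ, 2 ≤ k → (∀ j a c : ℤ, 0 < j → j < k → ¬ (|k * a - j * X| + |k * c - j * Y| ≤ k - j)) →
  k = 2 ∧ ¬ (2 : ℤ) ∣ X ∧ ¬ (2 : ℤ) ∣ Y

/-- [pyr] Integer points of the pyramid over a base. Proof. `(a, c, s j) = (j/k) (X, Y, s k) + (1 - j/k) (w₁, w₂, 0)`, `w₁ = (k a - j X)/(k - j)`, `w₂ = (k c - j Y)/(k - j)`, and `(w₁, w₂)` is in the base. Weights: `W`: `(1 + 2w₁ - w₂)/3, (1 + 2w₂ - w₁)/3, (1 - w₁ - w₂)/3`. `T`: `(1 + w₂ + 2w₁)/4` at `(1, 1)`, `(1 + w₂ - 2w₁)/4` at `(-1, 1)`,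
`(1 - w₂)/2` at `(0, -1)`. `D`: `(|w₁| ± w₁)/2 + r/4` at `(±1, 0)`, `(|w₂| ± w₂)/2 + r/4` at `(0, ±1)`, `r = 1 - |w₁| - |w₂|`. -/
def S_pyr : Prop := ∀ (P : Set (ℝ × ℝ × ℝ)) (b : Fin 3) (X Y k a c j s : ℤ), Convex ℝ P → (∀ v ∈ Base b, ip v ∈ P) → ip (X, Y, s * k) ∈ P → 0 < j → j < k →
  (b = 0 → (k * a - j * X) + (k * c - j * Y) ≤ k - j ∧ (k * a - j * X) - 2 * (k * c - j * Y) ≤ k - j ∧ (k * c - j * Y) - 2 * (k * a - j * X) ≤ k - j) →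
  (b = 1 → (k * c - j * Y) ≤ k - j ∧ 2 * |k * a - j * X| - (k * c - j * Y) ≤ k - j) →
  (b = 2 → |k * a - j * X| + |k * c - j * Y| ≤ k - j) → ip (a, c, s * j) ∈ P

/-- [side] Uses [upW], [upT], [upD], [pyr]. Proof. Choose `v` with `ip v ∈ P` and minimal `k = s v.2.2 ≥ 1` (well-founded); `v = (X, Y, s k)` because `s² = 1`. If `k = 1`, then `v.2.2 = s`. If `k ≥ 2`: for `0 < j < k` the point `(a, c, s j)` is not in `P` by minimality, so by [pyr] the inequalities of [upW], [upT] or [upD] fail, and these give the hole. -/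
def S_side : Prop := ∀ (P : Set (ℝ × ℝ × ℝ)) (b : Fin 3) (s : ℤ), Convex ℝ P → (∀ v ∈ Base b, ip v ∈ P) → (s = 1 ∨ s = -1) →
  (∃ v : ℤ × ℤ × ℤ, ip v ∈ P ∧ 0 < s * v.2.2) → ∃ x, Hl b x s ∧ ip x ∈ P

/-- [rbase] Uses [side], [T.J2]. Proof. [T.J2] for `Q = {v | (v.1, v.2, 0) ∈ P}` (convex) gives `g` with `W3`, `D4` or `T4` of `g '' Q`. Let `f` be the frame that acts by the inverse of `g` (again of the form `IsUM`) on the first two coordinates and fixes the third. `P' = f ⁻¹' P` is convex, contains the points of `Base 0`, `Base 2` or `Base 1`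
(`(v.1, v.2, 0) ∈ P'` iff `v ∈ g '' Q`), and has integer points with `z > 0` and with `z < 0` (`f` and its inverse preserve integrality and the third coordinate). Apply [side] with `s = 1, -1`. -/
def S_rbase : Prop := ∀ P : Set (ℝ × ℝ × ℝ), Convex ℝ P → J {v : ℝ × ℝ | (v.1, v.2, (0 : ℝ)) ∈ P} → (∃ v : ℤ × ℤ × ℤ, ip v ∈ P ∧ 0 < v.2.2) →
  (∃ v : ℤ × ℤ × ℤ, ip v ∈ P ∧ v.2.2 < 0) → Root P

/-- [rfr] Uses [T.fr1]. Proof. If `f'` is the frame for `f ⁻¹' P`, take `f ∘ f'`. -/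
def S_rfr : Prop := ∀ (f : ℝ × ℝ × ℝ → ℝ × ℝ × ℝ) (P : Set (ℝ × ℝ × ℝ)), IsFr f → Root (f ⁻¹' P) → Root P

/-- [rB] Uses [T.pln], [rbase], [rfr], [T.sides], [T.fr1], [T.fr2]. Proof. As [T.B] (see `T/P/B.lean`), with [rbase] instead of [T.PL3]: `r, s, t` the three points; [T.pln] gives `a, b, c` with `det3 a b c = 1`, `r = r₁ a + r₂ b`, `s = s₁ a + s₂ b`, `r₁ s₂ - r₂ s₁ > 0`; `f = fr 0 a b c`, `P' = f ⁻¹' P`; the section of `P'` with `z = 0` satisfies `J`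
(first alternative, `O = 0`); `Inn P' 0` gives points of `P'` with `z > 0` and `z < 0`, and [T.sides] (for `P'` and its mirror image) integer points; [rbase] gives `Root P'`, [rfr] `Root P`. -/
def S_rB : Prop := ∀ P : Set (ℝ × ℝ × ℝ), IsLP3 P → Inn P 0 → Tri3 P → Root P

/-- [rO] Uses [T.pln], [rbase], [rfr], [T.sides], [T.fr1], [T.fr2]. Proof. As [T.NoOpp] (see `T/P/NoOpp.lean`), with [rbase] instead of [T.PL3]: the section of `P'` satisfies `J` (second alternative with `O = 0`). -/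
def S_rO : Prop := ∀ P : Set (ℝ × ℝ × ℝ), IsLP3 P → Inn P 0 → ∀ t s s' : ℤ × ℤ × ℤ, ∀ α β γ : ℝ,
  ip t ∈ P → ip (-t) ∈ P → ip s ∈ P → ip s' ∈ P → cr t s ≠ 0 → 0 < α → 0 < β → α • ip s + β • ip s' = γ • ip t → Root P

/-- [OpR] Uses [rO]. Proof. `v, w` from `Op P`: `α = -(v.1 w.1 + v.2.1 w.2.1) > 0`, `β = v.1² + v.2.1² > 0`; as `det2 (pr v) (pr w) = 0`, `α (pr v) + β (pr w) = 0`. So `α v + β w = γ (0, 0, 1)`; `cr (0, 0, 1) v ≠ 0` because `pr v ≠ 0`. [rO] with `t = (0, 0, 1)`. -/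
def S_OpR : Prop := ∀ P : Set (ℝ × ℝ × ℝ), IsLP3 P → Inn P 0 → ip (0, 0, 1) ∈ P → ip (0, 0, -1) ∈ P → Op P → Root P

/-! ## B. A chord of length two -/

/-- [tr1] Proof. Suppose `x = pr X` is none of `0, q₁, q₂`. Let `s = det2 x q₂ ≥ 0`, `t = det2 q₁ x ≥ 0`, `s + t ≤ d₃`, `d₃ x = s q₁ + t q₂`. `s < d₃` (if `s = d₃`, then `t = 0`, `x = q₁`), `t < d₃`. `d₃ det2 x q₃ = t d₁ - s d₂`. (i) `det2 x q₃ > 0`: then `t > 0` and `TR P s₁ X s₃ (det2 x q₃) d₂ t` has a smaller sum (`det2 x q₃ ≤ t d₁/d₃ < d₁`, `t < d₃`).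
(ii) `det2 x q₃ < 0`: then `s > 0` and `TR P X s₂ s₃ d₁ (-det2 x q₃) s` has a smaller sum (`-det2 x q₃ ≤ s d₂/d₃ < d₂`). (iii) `det2 x q₃ = 0`: `t d₁ = s d₂`, and `d₂ x = -t q₃` (multiply by `d₃`: `d₂ (s q₁ + t q₂) = t (d₁ q₁ + d₂ q₂) = -t d₃ q₃`), `t > 0` (otherwise `s = 0`, `x = 0`); so `X` and `s₃` show `Op P`. All three contradict `Mn`. -/
def S_tr1 : Prop := ∀ (P : Set (ℝ × ℝ × ℝ)) (s₁ s₂ s₃ : ℤ × ℤ × ℤ) (d₁ d₂ d₃ : ℤ), TR P s₁ s₂ s₃ d₁ d₂ d₃ → Mn P (d₁ + d₂ + d₃) → ∀ X : ℤ × ℤ × ℤ, ip X ∈ P →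
  0 ≤ det2 (pr X) (pr s₂) → 0 ≤ det2 (pr s₁) (pr X) → det2 (pr X) (pr s₂) + det2 (pr s₁) (pr X) ≤ d₃ → pr X = 0 ∨ pr X = pr s₁ ∨ pr X = pr s₂

/-- [fib] Proof. Let `α = (d x - y a)/d`, `ρ = 1 - y/d - α ≥ 0`, `ζ = z - (y/d)(z₂ - a z₁)`, `|ζ| ≤ ρ`. The point is `α s₁ + (y/d) s₂ + ((ρ + ζ)/2) (0, 0, 1) + ((ρ - ζ)/2) (0, 0, -1)`, a convex combination. -/
def S_fib : Prop := ∀ (P : Set (ℝ × ℝ × ℝ)) (s₁ s₂ : ℤ × ℤ × ℤ) (e : ℤ × ℤ) (a d x y z : ℤ), Convex ℝ P → ip (0, 0, 1) ∈ P → ip (0, 0, -1) ∈ P → ip s₁ ∈ P → ip s₂ ∈ P → 0 < d →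
  pr s₂ = a • pr s₁ + d • e → 0 ≤ y → 0 ≤ d * x - y * a → |d * z - y * (s₂.2.2 - a * s₁.2.2)| ≤ d - y - (d * x - y * a) →
  ip ((x • pr s₁ + y • e).1, (x • pr s₁ + y • e).2, x * s₁.2.2 + z) ∈ P

/-- [numE] Proof. `d = 1` is clear; let `d ≥ 2`. (1) `b` and `d` are coprime: let `g = gcd(b, d) ≥ 2`, `y = d/g`, so `d ∣ y b`. With `z = y b/d` the hypothesis for `x = (y a + r)/d`, `r = (-y a) % d`, says `d - y - r < 0`, `r > d - y > 0`. The same for `y' = d - y` (`d ∣ y' b`): `r' = (-y' a) % d = (y a) % d = d - r` (as `r ≠ 0`), `r' > d - y' = y`, so `r < d - y`: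
contradiction. (2) Let `0 < y < d`, `y b ≡ 1` modulo `d`, `z = (y b - 1)/d`, `|d z - y b| = 1`: `r = (-y a) % d` satisfies `d - y - r < 1`, `r ≥ d - y`. For `y' = d - y`, `y' b ≡ -1`: `r' = (y a) % d ≥ y`; `r ≠ 0`, so `r' = d - r`, `r ≤ d - y`. Hence `r = d - y`, `-y a ≡ -y` modulo `d`, and `y` is invertible modulo `d`: `d ∣ a - 1`. -/
def S_numE : Prop := ∀ d a b : ℤ, 0 < d → (∀ x y z : ℤ, 0 < y → y < d → 0 ≤ d * x - y * a → d - y - (d * x - y * a) < |d * z - y * b|) → d ∣ a - 1 ∧ IsCoprime b d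

/-- [prm] Uses [tr1]. Proof. `q₁ ≠ 0`; let `m = gcd(q₁.1, q₁.2) > 0`, `q₁ = m q'`; by Bezout there is `e` with `det2 q₁ e = m`. Suppose `m ≥ 2`. The points `(1/m) s₁ + (1 - 1/m) (0, 0, θ)`, `|θ| ≤ 1`, are in `P`; their third coordinates fill an interval of length `2 (1 - 1/m) ≥ 1`, which contains an integer `z`. `X = (q', z)` with `det2 q' q₂ > 0` (`m` times it is `d₃`),
`det2 q₁ q' = 0`, and `det2 q' q₂ ≤ d₃`: by [tr1] `q' = 0`, `q₁` or `q₂`, impossible (`q' = q₁` gives `q₁ = m q₁`; `q' = q₂` gives `d₃ = m det2 q' q₂ = 0`). So `m = 1`. -/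
def S_prm : Prop := ∀ (P : Set (ℝ × ℝ × ℝ)) (s₁ s₂ s₃ : ℤ × ℤ × ℤ) (d₁ d₂ d₃ : ℤ), Convex ℝ P → ip (0, 0, 1) ∈ P → ip (0, 0, -1) ∈ P → TR P s₁ s₂ s₃ d₁ d₂ d₃ →
  Mn P (d₁ + d₂ + d₃) → ∃ e : ℤ × ℤ, det2 (pr s₁) e = 1

/-- [edge] Uses [prm], [tr1], [fib], [numE]. Proof. [prm]: `e'` with `det2 q₁ e' = 1`. `q₂ = a q₁ + d₃ e'` with `a = det2 q₂ e'`. Let `b = z₂ - a z₁`. Hypothesis of [numE] for `d = d₃`: suppose `0 < y < d`, `A = d x - y a ≥ 0` and `|d z - y b| ≤ d - y - A`. By [fib] the point `X = (x q₁ + y e', x z₁ + z)` is in `P`; `det2 (pr X) q₂ = A ≥ 0`, `det2 q₁ (pr X) = y`, `A + y ≤ d`,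
so by [tr1] `pr X` is `0`, `q₁` or `q₂`, and `det2 q₁ (pr X)` is `0`, `0` or `d`: contradiction. [numE]: `a = 1 + d n`, `b` and `d` coprime. `q₂ = q₁ + d (n q₁ + e')`, and `z₂ - z₁ = b + d n z₁` is coprime to `d`. -/
def S_edge : Prop := ∀ (P : Set (ℝ × ℝ × ℝ)) (s₁ s₂ s₃ : ℤ × ℤ × ℤ) (d₁ d₂ d₃ : ℤ), Convex ℝ P → ip (0, 0, 1) ∈ P → ip (0, 0, -1) ∈ P → TR P s₁ s₂ s₃ d₁ d₂ d₃ →
  Mn P (d₁ + d₂ + d₃) → (∃ e : ℤ × ℤ, pr s₂ = pr s₁ + d₃ • e) ∧ IsCoprime (s₂.2.2 - s₁.2.2) d₃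

/-- [refl] Proof. `d₁ + d₂ + d₃ = det2 (q₂ - q₁) (q₃ - q₁) = det2 (d₃ e₃) (-d₂ e₂) = d₂ d₃ det2 e₂ e₃`, and cyclically. -/
def S_refl : Prop := ∀ (q₁ q₂ q₃ e₁ e₂ e₃ : ℤ × ℤ) (d₁ d₂ d₃ : ℤ), d₁ = det2 q₂ q₃ → d₂ = det2 q₃ q₁ → d₃ = det2 q₁ q₂ → q₂ = q₁ + d₃ • e₃ → q₃ = q₂ + d₁ • e₁ → q₁ = q₃ + d₂ • e₂ →
  d₂ * d₃ ∣ d₁ + d₂ + d₃ ∧ d₃ * d₁ ∣ d₁ + d₂ + d₃ ∧ d₁ * d₂ ∣ d₁ + d₂ + d₃

/-- [dio] Proof. By symmetry `d₁ ≤ d₂ ≤ d₃`; `d₂ d₃ ≤ d₁ + d₂ + d₃ ≤ 3 d₃`, so `d₂ ≤ 3`. `(d₁, d₂) = (1, 1)`: `d₃ ∣ 2`. `(1, 2)`: `2 d₃ ∣ 3 + d₃`, so `d₃ ∣ 3`, `d₃ = 3`. `(2, 2)`: `d₃ ∣ 4` and `4 ∣ d₃`: `4`. `d₂ = 3`: `3 d₃ ≤ d₁ + 3 + d₃`, so `2 d₃ ≤ 6`: `(3, 3, 3)`, or `d₁ + 3 ≥ 2 d₃ ≥ 6`. -/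
def S_dio : Prop := ∀ d₁ d₂ d₃ : ℤ, 0 < d₁ → 0 < d₂ → 0 < d₃ → d₂ * d₃ ∣ d₁ + d₂ + d₃ → d₃ * d₁ ∣ d₁ + d₂ + d₃ → d₁ * d₂ ∣ d₁ + d₂ + d₃ →
  (d₁, d₂, d₃) ∈ ([(1, 1, 1), (3, 3, 3), (1, 1, 2), (1, 2, 1), (2, 1, 1), (1, 2, 3), (1, 3, 2), (2, 1, 3), (2, 3, 1), (3, 1, 2), (3, 2, 1), (2, 2, 4), (2, 4, 2), (4, 2, 2)] : List (ℤ × ℤ × ℤ))

/-- [cent] Recentring on the chord. Uses [T.fr1]. Proof. Let `H = d₁ z₁ + d₂ z₂ + d₃ z₃`, `D = d₁ + d₂ + d₃`, `σ` the sign of `H`, `H₁ = |H|`. `n = 0` if `H₁ < 2 D`, otherwise `n = H₁ / D - 1 ≥ 1` (floor). Let `f (x, y, z) = (x, y, σ (z + n))`, a frame. As `d₁ q₁ + d₂ q₂ + d₃ q₃ = 0` (identity for `det2`), the point `(0, 0, H/D) = Σ (dᵢ/D) sᵢ` is in `P`, and `(0, 0, -σ) ∈ P`. So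
`f (0, 0, ±1) = (0, 0, σ (n ± 1)) ∈ P`: `-1 ≤ n - 1`, `n + 1 ≤ max(1, H₁/D)`. The points `(sᵢ.1, sᵢ.2.1, σ sᵢ.2.2 - n)` are mapped to `sᵢ`. The new `H` is `H₁ - n D ∈ (0, 2D)`. -/
def S_cent : Prop := ∀ (P : Set (ℝ × ℝ × ℝ)) (s₁ s₂ s₃ : ℤ × ℤ × ℤ) (d₁ d₂ d₃ : ℤ), Convex ℝ P → ip (0, 0, 1) ∈ P → ip (0, 0, -1) ∈ P → TR P s₁ s₂ s₃ d₁ d₂ d₃ →
  d₁ * s₁.2.2 + d₂ * s₂.2.2 + d₃ * s₃.2.2 ≠ 0 → ∃ f, IsFr f ∧ ∃ σ n : ℤ, (σ = 1 ∨ σ = -1) ∧ ip (0, 0, 1) ∈ f ⁻¹' P ∧ ip (0, 0, -1) ∈ f ⁻¹' P ∧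
  TR (f ⁻¹' P) (s₁.1, s₁.2.1, σ * s₁.2.2 - n) (s₂.1, s₂.2.1, σ * s₂.2.2 - n) (s₃.1, s₃.2.1, σ * s₃.2.2 - n) d₁ d₂ d₃ ∧
  0 < d₁ * (σ * s₁.2.2 - n) + d₂ * (σ * s₂.2.2 - n) + d₃ * (σ * s₃.2.2 - n) ∧
  d₁ * (σ * s₁.2.2 - n) + d₂ * (σ * s₂.2.2 - n) + d₃ * (σ * s₃.2.2 - n) < 2 * (d₁ + d₂ + d₃)

/-- [beta] Uses [refl], [dio]. Proof. Always `d₁ q₁ + d₂ q₂ + d₃ q₃ = 0` (identity). [refl] and [dio] give the list; let `H = Σ dᵢ zᵢ`, `0 < H < 2 Σ dᵢ`. `(2, 2, 4)` and its permutations: all three differences `z₂ - z₁, z₃ - z₂, z₁ - z₃` are odd (coprime to an even number), but their sum is `0`: impossible.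
If some weight is `1`: let `(a, b, c)` be a permutation of the indices with `(d_a, d_b, d_c) = (1, 1, 1)`, `(2, 1, 1)` or `(3, 2, 1)`. The frame `f = fr 0 s_a s_b (0, 0, 1)` has `det3 = det2 q_a q_b = ± d_c = ± 1`, maps `(1, 0, 0), (0, 1, 0), (0, 0, ±1)` to `s_a, s_b, (0, 0, ±1)` and `(-d_a, -d_b, H)` to `s_c` (`d_a q_a + d_b q_b + q_c = 0`, `z_c = H - d_a z_a - d_b z_b`). `(1, 1, 1)`: `1 ≤ H ≤ 5`.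
`(2, 1, 1)`: `H ≤ 7`, `H ≡ z_b + z_c` is odd, because the difference of `z_b` and `z_c` is coprime to `d_a = 2`. `(3, 2, 1)`: `H ≤ 11`, `H ≡ z_a + z_c` modulo `2` is odd (difference coprime to `d_b = 2`), `H ≡ z_c - z_b` modulo `3` is not divisible by `3` (coprime to `d_a = 3`): `H ∈ {1, 5, 7, 11}`.
`(3, 3, 3)`: `H = 3 (z₁ + z₂ + z₃)`, `0 < z₁ + z₂ + z₃ < 6`; the `z_i` are pairwise incongruent modulo `3`, so `3` divides the sum: `z₁ + z₂ + z₃ = 3`. If `z₂ ≡ z₁ + 1` modulo `3`: `c = (e₃.1, e₃.2, ζ)`, `z₂ = z₁ + 3ζ + 1`; the frame `fr 0 s₁ c (0, 0, 1)` (`det2 q₁ e₃ = 1`, since `3 = det2 q₁ q₂ = 3 det2 q₁ e₃`) maps `(1, 3, 1)` to `s₂` and `(-2, -3, 2)` to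
`-2 s₁ - 3 c + (0, 0, 2) = s₃` (`q₃ = -q₁ - q₂ = -2q₁ - 3e₃`; height `-2z₁ - 3ζ + 2 = 3 - z₁ - z₂`). Otherwise `z₃ ≡ z₁ + 1`: the same with `s₃, -e₂` in place of `s₂, e₃` (`q₃ = q₁ + 3 (-e₂)`, `det2 q₁ (-e₂) = -1`), and `(1, 3, 1) ↦ s₃`, `(-2, -3, 2) ↦ s₂`. -/
def S_beta : Prop := ∀ (P : Set (ℝ × ℝ × ℝ)) (s₁ s₂ s₃ : ℤ × ℤ × ℤ) (d₁ d₂ d₃ : ℤ) (e₁ e₂ e₃ : ℤ × ℤ), ip (0, 0, 1) ∈ P → ip (0, 0, -1) ∈ P → TR P s₁ s₂ s₃ d₁ d₂ d₃ →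
  pr s₂ = pr s₁ + d₃ • e₃ → pr s₃ = pr s₂ + d₁ • e₁ → pr s₁ = pr s₃ + d₂ • e₂ →
  IsCoprime (s₂.2.2 - s₁.2.2) d₃ → IsCoprime (s₃.2.2 - s₂.2.2) d₁ → IsCoprime (s₁.2.2 - s₃.2.2) d₂ →
  0 < d₁ * s₁.2.2 + d₂ * s₂.2.2 + d₃ * s₃.2.2 → d₁ * s₁.2.2 + d₂ * s₂.2.2 + d₃ * s₃.2.2 < 2 * (d₁ + d₂ + d₃) → Root P

/-- [rC2] A chord of length two through the inner point, along the third axis. Uses [OpR], [rB], [edge], [cent], [beta], [rfr], [T.circ2], [T.fr2]. Proof. `P` is the hull of `V`; let `U` be the set of the projections `pr v`, `v ∈ V`. `Inn P 0` gives the hypothesis of [T.circ2] (project; as in `T/P/A.lean`). First alternative: `Op P`, and [OpR] applies. Otherwise there is a `TR P ..`. Assume `¬ Op P`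
(else [OpR]) and choose a `TR P s₁ s₂ s₃ d₁ d₂ d₃` with minimal sum (well-founded): `Mn P (d₁ + d₂ + d₃)`. `TR` is cyclic, so [edge] for `(s₁, s₂, s₃)`, `(s₂, s₃, s₁)`, `(s₃, s₁, s₂)` gives `e₃, e₁, e₂` and the three coprimality statements. Let `H = Σ dᵢ zᵢ`. If `H = 0`: `d₁ s₁ + d₂ s₂ + d₃ s₃ = 0`, `Tri3 P` (`cr s₁ s₂ ≠ 0` because its third coordinate is `d₃`), and [rB] applies. If `H ≠ 0`: [cent] gives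
`f, σ, n`; the new heights `σ zᵢ - n` have differences `σ (zᵢ - zⱼ)`, still coprime; [beta] for `f ⁻¹' P`, then [rfr]. -/
def S_rC2 : Prop := ∀ P : Set (ℝ × ℝ × ℝ), IsLP3 P → Inn P 0 → ip (0, 0, 1) ∈ P → ip (0, 0, -1) ∈ P → Root P

/-- [rA] Uses [rC2], [rfr], [T.prim], [T.fr1], [T.fr2]. Proof. `±t ∈ P`, `t = k c`, `det3 a b c = 1`, `k > 0` ([T.prim]); `f = fr 0 a b c`, `P' = f ⁻¹' P` contains `(0, 0, ±k)`, so by convexity `(0, 0, ±1)`; `IsLP3 P'`, `Inn P' 0` by [T.fr2]. [rC2] and [rfr]. -/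
def S_rA : Prop := ∀ P : Set (ℝ × ℝ × ℝ), IsLP3 P → Inn P 0 → Opp P → Root P

/-! ## C. Tetrahedra -/

/-- [teS] Proof. Determinants change the sign when two arguments are exchanged; `Tm` is symmetric. -/
def S_teS : Prop := ∀ (v₀ v₁ v₂ v₃ : ℤ × ℤ × ℤ) (w₀ w₁ w₂ w₃ m : ℤ), Te v₀ v₁ v₂ v₃ w₀ w₁ w₂ w₃ m →
  Te v₁ v₀ v₂ v₃ w₁ w₀ w₂ w₃ m ∧ Te v₀ v₂ v₁ v₃ w₀ w₂ w₁ w₃ m ∧ Te v₀ v₁ v₃ v₂ w₀ w₁ w₃ w₂ m

/-- [teM] Uses [T.quadX], [T.floor]. Proof. Choose `QD v d` in `P` with minimal sum `E = Σ dᵢ` (well-founded; `dᵢ > 0`). By [T.quadX], minimality, `¬ Opp P` and `¬ Tri3 P`: every integer point `X = Σ xᵢ vᵢ` with `0 ≤ xᵢ < 1`, `Σ xᵢ = 1` is `0`. This gives `Tm` (`xᵢ = nᵢ/N`; `0 < N` because `0 ≤ n₀ < N`) and the hypothesis of [T.floor]. Let `m = gcd(d₀, .., d₃) > 0`, `dᵢ = m wᵢ`, and an integer combination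 of
the `wᵢ` is `1`. `Σ dᵢ vᵢ = 0` (Cramer, `ring` from the definition of `QD`), so `Σ wᵢ vᵢ = 0`. The determinants are `± dᵢ` by `QD`. `Fl` is [T.floor]. -/
def S_teM : Prop := ∀ P : Set (ℝ × ℝ × ℝ), Convex ℝ P → ¬ Opp P → ¬ Tri3 P → (∃ v₀ v₁ v₂ v₃ d₀ d₁ d₂ d₃, QD v₀ v₁ v₂ v₃ d₀ d₁ d₂ d₃ ∧ In4 P v₀ v₁ v₂ v₃) →
  ∃ v₀ v₁ v₂ v₃ w₀ w₁ w₂ w₃ m, Te v₀ v₁ v₂ v₃ w₀ w₁ w₂ w₃ m ∧ In4 P v₀ v₁ v₂ v₃ ∧ Fl w₀ w₁ w₂ w₃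

/-- [WT7] Proof. Let `D = Σ wᵢ ≥ 4`, `cᵢ(j) = wᵢ j / D` (floor). For `4 ≤ D ≤ 19`: finite check (`w₀ ≤ w₁ ≤ w₂ ≤ w₃`, sum `≤ 19`; `decide` or `interval_cases`). Let `D ≥ 20`; the condition holds for `j = 2, .., 18`, and this is contradictory: `c(2) = (0, 0, 0, 0)`, so `2 wᵢ < D` and `cᵢ(j + 1) - cᵢ(j) ∈ {0, 1}`; as `Σ cᵢ(j) = j - 2`, in each step `j → j + 1` exactly one of the four quotients
increases. With `c D ≤ wᵢ j < (c + 1) D` these are linear inequalities; the tree of the feasible choices (`w₀ ≤ w₁ ≤ w₂ ≤ w₃`) has only 1, 1, 1, 2, 2, 5, 5, 7, 8, 10, 5, 6, 4, 2, 1, 1, 0 nodes for `j = 2, 3, .., 18` (c(3) = 0001, c(4) = 0011, ..): every branch is closed by `omega`. (Generate the case distinction by a small program.) -/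
def S_WT7 : Prop := ∀ w₀ w₁ w₂ w₃ : ℤ, 0 < w₀ → w₀ ≤ w₁ → w₁ ≤ w₂ → w₂ ≤ w₃ → Fl w₀ w₁ w₂ w₃ → (w₀, w₁, w₂, w₃) ∈ L7

/-- [sort] Uses [teS]. Proof. Sort by adjacent transpositions (`Fl` and `In4` are symmetric up to reordering). -/
def S_sort : Prop := ∀ (P : Set (ℝ × ℝ × ℝ)) (v₀ v₁ v₂ v₃ : ℤ × ℤ × ℤ) (w₀ w₁ w₂ w₃ m : ℤ), Te v₀ v₁ v₂ v₃ w₀ w₁ w₂ w₃ m → In4 P v₀ v₁ v₂ v₃ → Fl w₀ w₁ w₂ w₃ →
  ∃ v₀' v₁' v₂' v₃' w₀' w₁' w₂' w₃', Te v₀' v₁' v₂' v₃' w₀' w₁' w₂' w₃' m ∧ In4 P v₀' v₁' v₂' v₃' ∧ Fl w₀' w₁' w₂' w₃' ∧ w₀' ≤ w₁' ∧ w₁' ≤ w₂' ∧ w₂' ≤ w₃'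

/-- [emp4] Proof. Let `q = |det3 v₁ v₂ v₃| > 0`, `D = Σ wᵢ`. (`all`) Let `x` be an integer point of the hull of `0, v₁, v₂, v₃`: `x = Σ μᵢ vᵢ`, `μᵢ ≥ 0`, `Σ μᵢ ≤ 1`; by Cramer `μᵢ = nᵢ/q` with integers `nᵢ ≥ 0` (`nᵢ = ± det3 x v₂ v₃` etc.), `r = q - Σ nᵢ ≥ 0`. As `Σ wᵢ vᵢ = 0`, `(q D) x = Σ_{i ≥ 1} (D nᵢ + r wᵢ) vᵢ + r w₀ v₀`, with nonnegative coefficients of sum `q D`. If all are
`< q D`, then `x = 0` by `Tm`. Otherwise one of them is `q D` and the others are `0`; then `r = 0` (the coefficients with `r wᵢ`; at least three are `0`), and `D nᵢ = q D`: `x = vᵢ`. (`ext`) `v₁, v₂, v₃` are linearly independent, so `0 ∉ hull {v₁, v₂, v₃}` and `vᵢ` is not in the hull of `0` and the other two; also the four points are different. -/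
def S_emp4 : Prop := ∀ (v₀ v₁ v₂ v₃ : ℤ × ℤ × ℤ) (w₀ w₁ w₂ w₃ m : ℤ), Te v₀ v₁ v₂ v₃ w₀ w₁ w₂ w₃ m → Emp ({0, v₁, v₂, v₃} : Finset (ℤ × ℤ × ℤ))

/-- [nf] White's normal form. Uses [T.W8n], [T.fr1]. Proof. Let `q = |det3 v₁ v₂ v₃|`. If `q = 1`: `(i, k, l) = (v₁, v₂, v₃)`, `y = 0`, `c = v₂ - v₁`. Let `q ≥ 2`. [T.W8n] for `v₀ = 0`: a frame `f w = O + M w` and `y` with `f (0,0,0) = u₀`, `f (1,0,0) = u₁`, `f (0,1,0) = u₂`, `f (1, y, q) = u₃`, `uᵢ ∈ {0, v₁, v₂, v₃}`; `f` is injective, so the `uᵢ` are different and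
`(u₀, u₁, u₂, u₃)` is a permutation of `(0, v₁, v₂, v₃)`. With `c = M (0,0,1)`: `u₃ = u₁ + y (u₂ - u₀) + q c`. `y` and `q` are coprime: if an integer `r ≥ 2` divides both, the integer point `(1, y/r, q/r)` is strictly between `(1, 0, 0)` and `(1, y, q)`; its image is an integer point of the hull, so one of the `uᵢ` (`Emp.all`), which is impossible. If `u₀ = 0`: `k = u₃, i = u₁, l = u₂`. If `u₂ = 0`: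
`k = u₃, i = u₁, l = u₀` with `-y`. If `u₁ = 0`: `u₃ = y (u₂ - u₀) + q c`; let `y y' = 1 + q n`: `u₂ = u₀ + y' u₃ + q (..)`: `k = u₂, i = u₀, l = u₃` with `y'`. If `u₃ = 0`: `u₁ = y (u₀ - u₂) - q c`: `u₀ = u₂ + y' u₁ + q (..)`: `k = u₀, i = u₂, l = u₁`. -/
def S_nf : Prop := ∀ v₁ v₂ v₃ : ℤ × ℤ × ℤ, Emp ({0, v₁, v₂, v₃} : Finset (ℤ × ℤ × ℤ)) → det3 v₁ v₂ v₃ ≠ 0 → NF v₁ v₂ v₃

/-- [fn] Proof. Let `q = |det3 v₁ v₂ v₃| > 0`, `k = i + y l + q c`. `det3 i l k = q det3 i l c` and `|det3 i l k| = q`, so `ε = det3 i l c = ±1`. `n = ε cr l c`: `dot n i = ε det3 i l c = 1`, `dot n l = dot n c = 0`, `dot n k = 1`. In each of the six permutations two of the values at `v₁, v₂, v₃` are `1` and the third is `0`. -/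
def S_fn : Prop := ∀ v₁ v₂ v₃ : ℤ × ℤ × ℤ, NF v₁ v₂ v₃ → det3 v₁ v₂ v₃ ≠ 0 → ∃ n : ℤ × ℤ × ℤ, Pat (dot n v₁) (dot n v₂) (dot n v₃)

/-- [idxA] Proof. Finite: in each row the entry `x j j` is determined by the relation and the pattern, so there are at most `81` matrices for each of the `7` weight vectors; in each of them some determinant is nonzero, and the greatest common divisor of the four determinants (omit one row) divided by `w₀` is `1, 3, 4, 5, 6` for `(1,1,1,1)`, `1, 2, 3, 4, 6` for `(1,1,1,2)`, `1, 2, 3, 4, 5` for `(1,1,2,3)` and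
`1` for the other four (checked by computer). `m w₀` divides all determinants. (E.g. `rcases` on the patterns, `omega` or `decide` for the rest; or reflect the statement to a `decide` over lists.) -/
def S_idxA : Prop := ∀ (w₀ w₁ w₂ w₃ m : ℤ) (x : Fin 4 → Fin 4 → ℤ), (w₀, w₁, w₂, w₃) ∈ L7 → 0 < m → (∀ j, w₀ * x j 0 + w₁ * x j 1 + w₂ * x j 2 + w₃ * x j 3 = 0) →
  Pat (x 0 1) (x 0 2) (x 0 3) → Pat (x 1 0) (x 1 2) (x 1 3) → Pat (x 2 0) (x 2 1) (x 2 3) → Pat (x 3 0) (x 3 1) (x 3 2) →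
  (∀ a b c : Fin 4, m * w₀ ∣ det3 (x a 1, x a 2, x a 3) (x b 1, x b 2, x b 3) (x c 1, x c 2, x c 3)) → m ≤ 6 ∧ (11 ≤ w₀ + w₁ + w₂ + w₃ → m = 1)

/-- [idx] Uses [teS], [emp4], [nf], [fn], [idxA]. Proof. By [emp4], [nf], [fn] for the four permutations of `Te` that put `v_j` first (the others in increasing order) there are integer vectors `n_j` with `Pat` for the values at the other three vertices. `x j i = dot n_j v_i`; the relation is `dot n_j (Σ wᵢ vᵢ) = 0`. `det3` of the rows `a, b, c` (columns `1, 2, 3`) is `det3 n_a n_b n_c * det3 v₁ v₂ v₃`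
(`ring`), divisible by `|det3 v₁ v₂ v₃| = m w₀`. [idxA]. -/
def S_idx : Prop := ∀ (v₀ v₁ v₂ v₃ : ℤ × ℤ × ℤ) (w₀ w₁ w₂ w₃ m : ℤ), Te v₀ v₁ v₂ v₃ w₀ w₁ w₂ w₃ m → (w₀, w₁, w₂, w₃) ∈ L7 →
  m ≤ 6 ∧ (11 ≤ w₀ + w₁ + w₂ + w₃ → m = 1)

/-- [excA] Proof. Finite check (`decide`): `w` is one of five vectors, `2 ≤ m ≤ 6`, `0 ≤ y < m`, and `(wᵢ, w_k, w_l)` a permutation of `(w₁, w₂, w₃)`. Take `t, r` with `0 ≤ t < m`, `0 ≤ r < D`. (Checked by computer: the pair exists in all cases except `w = (1, 1, 1, 1)`, `m = 5`, `y ∈ {2, 3}`.) Here `N = m D` and the four numbers are the numerators (reduced modulo `N`) of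
`t (-1, -y, 1, 0)/m + ((t y/m) + r) w/D` for the vertices `i, l, k, 0`. -/
def S_excA : Prop := ∀ w₀ wi wk wl m y : ℤ, (∃ w₁ w₂ w₃ : ℤ, (w₀, w₁, w₂, w₃) ∈ L7 ∧ w₀ = 1 ∧ ((wi, wk, wl) = (w₁, w₂, w₃) ∨ (wi, wk, wl) = (w₁, w₃, w₂) ∨ (wi, wk, wl) = (w₂, w₁, w₃) ∨
    (wi, wk, wl) = (w₂, w₃, w₁) ∨ (wi, wk, wl) = (w₃, w₁, w₂) ∨ (wi, wk, wl) = (w₃, w₂, w₁))) → 2 ≤ m → m ≤ 6 → 0 ≤ y → y < m → IsCoprime y m →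
  (w₀ + wi + wk + wl = 4 ∧ m = 5 ∧ (y = 2 ∨ y = 3)) ∨ ∃ t r N ni nk nl n₀ : ℤ, N = m * (w₀ + wi + wk + wl) ∧
    ni = (-t * (w₀ + wi + wk + wl) + (t * y + r * m) * wi) % N ∧ nl = (-t * y * (w₀ + wi + wk + wl) + (t * y + r * m) * wl) % N ∧
    nk = (t * (w₀ + wi + wk + wl) + (t * y + r * m) * wk) % N ∧ n₀ = ((t * y + r * m) * w₀) % N ∧
    ni + nk + nl + n₀ = N ∧ ¬ (ni = m * wi ∧ nk = m * wk ∧ nl = m * wl ∧ n₀ = m * w₀)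

/-- [exc] Uses [excA]. Proof. Write `y = y' + m n`, `0 ≤ y' < m`; `k = i + y' l + m c'`, `c' = c + n l`. [excA] for `y'` and the weights `wi, wk, wl` of `i, k, l`: in the second case `N` divides, with `X = t c'` reduced: `t c' = (t/m)(k - i - y' l)`, so `N (t c') = t D (k - i - y' l)`, and `Σ wᵢ vᵢ = 0` shows `N (t c') = (-tD + s wi) i + (-t y' D + s wl) l + (tD + s wk) k + s w₀ v₀`, `s = t y' + r m`.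
Reducing the coefficients modulo `N` changes `t c'` by an integer vector: `N X = ni i + nl l + nk k + n₀ v₀`. All coefficients are `≥ 0` and `< N` (remainders), their sum is `N`, so `X = 0` by `Tm`, and `ni i + nk k + nl l + n₀ v₀ = 0`. As also `w₀ v₀ = -(wi i + wk k + wl l)` and `i, k, l` are linearly independent (`|det3| = m w₀ ≠ 0`): `w₀ ni = n₀ wi` etc., i.e. `ni = n₀ wi` (`w₀ = 1`),
and the sum `N = n₀ D` gives `n₀ = m`: contradiction to the last condition. So the first case holds: the weights are all `1` (sum `4`), `m = 5`, `y' = 2` or `3`. -/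
def S_exc : Prop := ∀ (v₀ v₁ v₂ v₃ i k l c : ℤ × ℤ × ℤ) (w₀ w₁ w₂ w₃ m y : ℤ), Te v₀ v₁ v₂ v₃ w₀ w₁ w₂ w₃ m → (w₀, w₁, w₂, w₃) ∈ L7 → w₀ = 1 → 2 ≤ m → m ≤ 6 →
  Pm i k l v₁ v₂ v₃ → IsCoprime y m → k = i + y • l + m • c → w₁ = 1 ∧ w₂ = 1 ∧ w₃ = 1 ∧ m = 5 ∧ ((5 : ℤ) ∣ y - 2 ∨ (5 : ℤ) ∣ y - 3)

/-- [ix1] Proof. Index one. `w₀ = 1` (five cases): `|det3 v₁ v₂ v₃| = 1`, the frame `fr 0 v₁ v₂ v₃` maps the unit vectors to `v₁, v₂, v₃` and `(-w₁, -w₂, -w₃)` to `v₀`. `w = (2, 3, 5, 7)`: `c = v₀ + v₁ + 3 v₂ + 4 v₃`, the frame `fr 0 v₂ v₃ c`: `det3 v₂ v₃ c = det3 v₀ v₂ v₃ + det3 v₁ v₂ v₃`; by the relation `2 det3 v₀ v₂ v₃ + 3 det3 v₁ v₂ v₃ = 0` and the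
absolute values are `3` and `2`, so the sum is `±1`. `(-4, -5, 3) ↦ -4 v₂ - 5 v₃ + 3 c = v₀ + (2v₀ + 3v₁ + 5v₂ + 7v₃) = v₀`, `(1, 1, -2) ↦ v₂ + v₃ - 2 c = v₁`. `w = (3, 4, 5, 7)`: `c = v₀ + v₁ + v₂ + 2 v₃`, the same frame; `3 det3 v₀ v₂ v₃ + 4 det3 v₁ v₂ v₃ = 0`, absolute values `4` and `3`. `(1, -1, 4) ↦ v₂ - v₃ + 4 c = v₀`, `(-2, -1, -3) ↦ -2 v₂ - v₃ - 3 c = v₁`. -/
def S_ix1 : Prop := ∀ (P : Set (ℝ × ℝ × ℝ)) (v₀ v₁ v₂ v₃ : ℤ × ℤ × ℤ) (w₀ w₁ w₂ w₃ : ℤ), Te v₀ v₁ v₂ v₃ w₀ w₁ w₂ w₃ 1 → In4 P v₀ v₁ v₂ v₃ → (w₀, w₁, w₂, w₃) ∈ L7 → Root P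

/-- [ix5] Proof. If `y = 2 + 5 n`: `k = i + 2 l + 5 c'`, `c' = c + n l`; `|det3 i l k| = 5` and `det3 i l k = 5 det3 i l c'`, so `det3 i l c' = ±1`. The frame `fr 0 (-c') i l` maps `(0, 1, 0) ↦ i`, `(0, 0, 1) ↦ l`, `(-5, 1, 2) ↦ 5 c' + i + 2 l = k`, `(5, -2, -3) ↦ -5c' - 2i - 3l = -(i + l + k) = v₀`. If `y = 3 + 5 n`: `i = k + 2 l + 5 (-l - c')`, `c' = c + n l`: exchange `i` and `k`. -/
def S_ix5 : Prop := ∀ (P : Set (ℝ × ℝ × ℝ)) (v₀ v₁ v₂ v₃ i k l c : ℤ × ℤ × ℤ) (y : ℤ), Te v₀ v₁ v₂ v₃ 1 1 1 1 5 → In4 P v₀ v₁ v₂ v₃ → Pm i k l v₁ v₂ v₃ → k = i + y • l + (5 : ℤ) • c →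
  ((5 : ℤ) ∣ y - 2 ∨ (5 : ℤ) ∣ y - 3) → Root P

/-- [rC] Uses [teM], [sort], [WT7], [idx], [emp4], [nf], [exc], [ix1], [ix5]. Proof. [teM], [sort], [WT7]: a `Te` in `P` with `w ∈ L7`. [idx]: `m ≤ 6`, and `m = 1` if `D ≥ 11`. `m = 1`: [ix1]. `m ≥ 2`: then `D < 11`, so `w₀ = 1` (`w` is one of the first three); [emp4] and [nf] give `NF v₁ v₂ v₃` with `|det3 v₁ v₂ v₃| = m`; [exc] and [ix5]. -/
def S_rC : Prop := ∀ P : Set (ℝ × ℝ × ℝ), Convex ℝ P → ¬ Opp P → ¬ Tri3 P → (∃ v₀ v₁ v₂ v₃ d₀ d₁ d₂ d₃, QD v₀ v₁ v₂ v₃ d₀ d₁ d₂ d₃ ∧ In4 P v₀ v₁ v₂ v₃) → Root P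

/-- [roots] Uses [rA], [rB], [rC], [rfr], [T.circ], [T.fr2]. Proof. Let `v` be an integer point with `Inn P (ip v)`. The translation `f w = w + v` is a frame, `P' = f ⁻¹' P` is an integer polytope with `Inn P' 0`, `P' = hull V`. [T.circ]: `Opp` ([rA]), `Tri3` ([rB]) or a `QD` ([rC], if neither `Opp` nor `Tri3`). Then [rfr]. -/
def S_roots : Prop := ∀ P : Set (ℝ × ℝ × ℝ), IsLP3 P → (∃ v : ℤ × ℤ × ℤ, Inn P (ip v)) → Root P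

end Pool.Agent.Lib.MP_0bc52e_nt.R
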