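import Pool.Agent.Lib.MP_0bc52e_nt.T.Defs

/-!
Definitions for the root theorem (MP_0bc52e_nt): an integer polytope with an inner integer point
contains, after an integer frame, one of finitely many configurations (or families).
-/

namespace Pool.Agent.Lib.MP_0bc52e_nt.R

open Pool.Agent.Lib.MP_0bc52e_nt.LC Pool.Agent.Lib.MP_0bc52e_nt.T

/-- The eight tetrahedra. -/
def Theta : List (List (ℤ × ℤ × ℤ)) := [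
  [(-1, -1, -1), (1, 0, 0), (0, 1, 0), (0, 0, 1)],
  [(-1, -1, -2), (1, 0, 0), (0, 1, 0), (0, 0, 1)],
  [(-1, -2, -3), (1, 0, 0), (0, 1, 0), (0, 0, 1)],
  [(-2, -3, -5), (1, 0, 0), (0, 1, 0), (0, 0, 1)],
  [(-3, -4, -5), (1, 0, 0), (0, 1, 0), (0, 0, 1)],
  [(-4, -5, 3), (1, 1, -2), (1, 0, 0), (0, 1, 0)],
  [(1, -1, 4), (-2, -1, -3), (1, 0, 0), (0, 1, 0)],
  [(-5, 1, 2), (5, -2, -3), (0, 1, 0), (0, 0, 1)]]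

/-- The fourteen configurations with the two points `(0, 0, ±1)`. -/
def Beta : List (List (ℤ × ℤ × ℤ)) := [
  [(0, 0, 1), (0, 0, -1), (1, 0, 0), (0, 1, 0), (-1, -1, 1)],
  [(0, 0, 1), (0, 0, -1), (1, 0, 0), (0, 1, 0), (-1, -1, 2)],
  [(0, 0, 1), (0, 0, -1), (1, 0, 0), (0, 1, 0), (-1, -1, 3)],
  [(0, 0, 1), (0, 0, -1), (1, 0, 0), (0, 1, 0), (-1, -1, 4)],
  [(0, 0, 1), (0, 0, -1), (1, 0, 0), (0, 1, 0), (-1, -1, 5)],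
  [(0, 0, 1), (0, 0, -1), (1, 0, 0), (0, 1, 0), (-2, -1, 1)],
  [(0, 0, 1), (0, 0, -1), (1, 0, 0), (0, 1, 0), (-2, -1, 3)],
  [(0, 0, 1), (0, 0, -1), (1, 0, 0), (0, 1, 0), (-2, -1, 5)],
  [(0, 0, 1), (0, 0, -1), (1, 0, 0), (0, 1, 0), (-2, -1, 7)],
  [(0, 0, 1), (0, 0, -1), (1, 0, 0), (0, 1, 0), (-3, -2, 1)],
  [(0, 0, 1), (0, 0, -1), (1, 0, 0), (0, 1, 0), (-3, -2, 5)],
  [(0, 0, 1), (0, 0, -1), (1, 0, 0), (0, 1, 0), (-3, -2, 7)],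
  [(0, 0, 1), (0, 0, -1), (1, 0, 0), (0, 1, 0), (-3, -2, 11)],
  [(0, 0, 1), (0, 0, -1), (1, 0, 0), (1, 3, 1), (-2, -3, 2)]]

/-- The three planar bases: `0` is the triangle `W`, `1` the triangle `T`, `2` the square `D`. -/
def Base : Fin 3 → List (ℤ × ℤ × ℤ)
  | 0 => [(1, 0, 0), (0, 1, 0), (-1, -1, 0)]
  | 1 => [(1, 1, 0), (-1, 1, 0), (0, -1, 0)]
  | 2 => [(1, 0, 0), (-1, 0, 0), (0, 1, 0), (0, -1, 0)]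

/-- `x` is at level `s` (`s = ±1`) above the base `b`, or over a deepest hole at the next level. -/
def Hl (b : Fin 3) (x : ℤ × ℤ × ℤ) (s : ℤ) : Prop :=
  x.2.2 = s ∨
  (b = 0 ∧ x.2.2 = 3 * s ∧ (((3 : ℤ) ∣ x.1 - 1 ∧ (3 : ℤ) ∣ x.2.1 + 1) ∨
    ((3 : ℤ) ∣ x.1 + 1 ∧ (3 : ℤ) ∣ x.2.1 - 1))) ∨
  (b = 1 ∧ x.2.2 = 2 * s ∧ ¬ (2 : ℤ) ∣ x.1 ∧ (2 : ℤ) ∣ x.2.1) ∨
  (b = 2 ∧ x.2.2 = 2 * s ∧ ¬ (2 : ℤ) ∣ x.1 ∧ ¬ (2 : ℤ) ∣ x.2.1)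

/-- `P` contains one of the roots, in some frame. -/
def Root (P : Set (ℝ × ℝ × ℝ)) : Prop :=
  ∃ f, IsFr f ∧ ((∃ R ∈ Theta, ∀ v ∈ R, f (ip v) ∈ P) ∨ (∃ R ∈ Beta, ∀ v ∈ R, f (ip v) ∈ P) ∨
    (∃ b : Fin 3, (∀ v ∈ Base b, f (ip v) ∈ P) ∧ (∃ x, Hl b x 1 ∧ f (ip x) ∈ P) ∧
      ∃ y, Hl b y (-1) ∧ f (ip y) ∈ P))

/-- The first two coordinates. -/
def pr (v : ℤ × ℤ × ℤ) : ℤ × ℤ := (v.1, v.2.1)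

/-- The inner product. -/
def dot (a b : ℤ × ℤ × ℤ) : ℤ := a.1 * b.1 + a.2.1 * b.2.1 + a.2.2 * b.2.2

/-- Three integer points of `P` whose projections surround the origin, in positive order; `dᵢ` is the determinant of the two others. -/
def TR (P : Set (ℝ × ℝ × ℝ)) (s₁ s₂ s₃ : ℤ × ℤ × ℤ) (d₁ d₂ d₃ : ℤ) : Prop :=
  ip s₁ ∈ P ∧ ip s₂ ∈ P ∧ ip s₃ ∈ P ∧ d₁ = det2 (pr s₂) (pr s₃) ∧ d₂ = det2 (pr s₃) (pr s₁) ∧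
    d₃ = det2 (pr s₁) (pr s₂) ∧ 0 < d₁ ∧ 0 < d₂ ∧ 0 < d₃

/-- Two integer points of `P` with opposite (nonzero) projections. -/
def Op (P : Set (ℝ × ℝ × ℝ)) : Prop := ∃ v w : ℤ × ℤ × ℤ, ip v ∈ P ∧ ip w ∈ P ∧ pr v ≠ 0 ∧
  det2 (pr v) (pr w) = 0 ∧ v.1 * w.1 + v.2.1 * w.2.1 < 0

/-- No two integer points have opposite projections, and all triples `TR` have sum at least `s`. -/
def Mn (P : Set (ℝ × ℝ × ℝ)) (s : ℤ) : Prop :=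
  ¬ Op P ∧ ∀ s₁ s₂ s₃ d₁ d₂ d₃, TR P s₁ s₂ s₃ d₁ d₂ d₃ → s ≤ d₁ + d₂ + d₃

/-- The only integer point of the tetrahedron, apart from the vertices, is the origin. -/
def Tm (v₀ v₁ v₂ v₃ : ℤ × ℤ × ℤ) : Prop := ∀ (N n₀ n₁ n₂ n₃ : ℤ) (X : ℤ × ℤ × ℤ),
  0 ≤ n₀ → 0 ≤ n₁ → 0 ≤ n₂ → 0 ≤ n₃ → n₀ < N → n₁ < N → n₂ < N → n₃ < N → n₀ + n₁ + n₂ + n₃ = N →
  N • X = n₀ • v₀ + n₁ • v₁ + n₂ • v₂ + n₃ • v₃ → X = 0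

/-- A tetrahedron with weights `wᵢ` and index `m`, whose only integer points are the vertices and the origin, which is inside. -/
structure Te (v₀ v₁ v₂ v₃ : ℤ × ℤ × ℤ) (w₀ w₁ w₂ w₃ m : ℤ) : Prop where
  hm : 0 < m
  h₀ : 0 < w₀
  h₁ : 0 < w₁
  h₂ : 0 < w₂
  h₃ : 0 < w₃
  sum : w₀ • v₀ + w₁ • v₁ + w₂ • v₂ + w₃ • v₃ = 0
  d₀ : |det3 v₁ v₂ v₃| = m * w₀
  d₁ : |det3 v₀ v₂ v₃| = m * w₁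
  d₂ : |det3 v₀ v₁ v₃| = m * w₂
  d₃ : |det3 v₀ v₁ v₂| = m * w₃
  tm : Tm v₀ v₁ v₂ v₃

/-- The condition on the weights. -/
def Fl (w₀ w₁ w₂ w₃ : ℤ) : Prop := ∀ j : ℤ, 2 ≤ j → j + 2 ≤ w₀ + w₁ + w₂ + w₃ →
  w₀ * j / (w₀ + w₁ + w₂ + w₃) + w₁ * j / (w₀ + w₁ + w₂ + w₃) + w₂ * j / (w₀ + w₁ + w₂ + w₃) + w₃ * j / (w₀ + w₁ + w₂ + w₃) = j - 2

/-- The seven weight vectors. -/
def L7 : List (ℤ × ℤ × ℤ × ℤ) := [(1, 1, 1, 1), (1, 1, 1, 2), (1, 1, 2, 3), (1, 2, 3, 5), (1, 3, 4, 5), (2, 3, 5, 7), (3, 4, 5, 7)]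

/-- Two of the three numbers are `1`, the third is `0`. -/
def Pat (a b c : ℤ) : Prop := (a = 1 ∧ b = 1 ∧ c = 0) ∨ (a = 1 ∧ b = 0 ∧ c = 1) ∨ (a = 0 ∧ b = 1 ∧ c = 1)

/-- `(i, k, l)` is a permutation of `(v₁, v₂, v₃)`. -/
def Pm (i k l v₁ v₂ v₃ : ℤ × ℤ × ℤ) : Prop :=
  (i, k, l) = (v₁, v₂, v₃) ∨ (i, k, l) = (v₁, v₃, v₂) ∨ (i, k, l) = (v₂, v₁, v₃) ∨ (i, k, l) = (v₂, v₃, v₁) ∨
    (i, k, l) = (v₃, v₁, v₂) ∨ (i, k, l) = (v₃, v₂, v₁)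

/-- White's normal form of the empty tetrahedron `0 v₁ v₂ v₃`. -/
def NF (v₁ v₂ v₃ : ℤ × ℤ × ℤ) : Prop := ∃ (i k l c : ℤ × ℤ × ℤ) (y : ℤ), Pm i k l v₁ v₂ v₃ ∧ IsCoprime y |det3 v₁ v₂ v₃| ∧
  k = i + y • l + |det3 v₁ v₂ v₃| • c

end Pool.Agent.Lib.MP_0bc52e_nt.R
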